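import Mathlib

/-! Leading exponents and leading coefficients of spaces of power series. -/

namespace Pool.Agent.Lib.MP_bc213e_ag.Jet

open MvPowerSeries Module
open scoped MonomialOrder

noncomputable section

variable {σ F R : Type} [Field F] [CommRing R] [Algebra F R] (m : MonomialOrder σ)

/-- The series without terms below `α`. -/
def Fil (α : σ →₀ ℕ) : Ideal (MvPowerSeries σ R) where
  carrier := {φ | ∀ β, β ≺[m] α → coeff β φ = 0}
  add_mem' := fun ha hb β h => by rw [map_add, ha β h, hb β h, add_zero]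
  zero_mem' := fun β _ => map_zero _
  smul_mem' := fun c φ hφ β h => by
    classical
    rw [smul_eq_mul, coeff_mul]
    refine Finset.sum_eq_zero fun p hp => ?_
    rw [hφ p.2 (lt_of_le_of_lt ?_ h), mul_zero]
    rw [← Finset.HasAntidiagonal.mem_antidiagonal.1 hp]
    exact m.toSyn_monotone le_add_self

theorem mem_Fil {α : σ →₀ ℕ} {φ : MvPowerSeries σ R} :
    φ ∈ Fil m α ↔ ∀ β, β ≺[m] α → coeff β φ = 0 := Iff.rfl

theorem mem_Fil_zero (φ : MvPowerSeries σ R) : φ ∈ Fil m 0 := fun β h => by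
  rw [map_zero] at h
  exact absurd h (not_lt.2 (m.zero_le _))

theorem Fil_anti {α β : σ →₀ ℕ} (h : α ≼[m] β) : Fil (R := R) m β ≤ Fil m α :=
  fun _ hφ γ hγ => hφ γ (lt_of_lt_of_le hγ h)

theorem Fil_aux {α α' β : σ →₀ ℕ} {φ ψ : MvPowerSeries σ R} (h : φ ∈ Fil m α) (h' : ψ ∈ Fil m α')
    (hβ : β ≼[m] α + α') {p : (σ →₀ ℕ) × (σ →₀ ℕ)} (hp : p.1 + p.2 = β) (hne : p ≠ (α, α')) :
    coeff p.1 φ * coeff p.2 ψ = 0 := by
  by_cases h1 : p.1 ≺[m] α
  · rw [h _ h1, zero_mul]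
  by_cases h2 : p.2 ≺[m] α'
  · rw [h' _ h2, mul_zero]
  rw [← hp, map_add, map_add] at hβ
  have h3 := not_lt.1 h1
  have h4 := not_lt.1 h2
  have h5 : m.toSyn p.1 = m.toSyn α := le_antisymm (le_of_add_le_add_right (hβ.trans
    (add_le_add_right h4 _))) h3
  have h6 : m.toSyn p.2 = m.toSyn α' := le_antisymm (by
    rw [h5] at hβ
    exact le_of_add_le_add_left hβ) h4
  exact absurd (Prod.ext (m.toSyn.injective h5) (m.toSyn.injective h6)) hne

theorem Fil_mul {α α' : σ →₀ ℕ} {φ ψ : MvPowerSeries σ R} (h : φ ∈ Fil m α) (h' : ψ ∈ Fil m α') :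
    φ * ψ ∈ Fil m (α + α') := fun β hβ => by
  classical
  rw [coeff_mul]
  refine Finset.sum_eq_zero fun p hp => Fil_aux m h h' hβ.le (Finset.HasAntidiagonal.mem_antidiagonal.1 hp) ?_
  rintro rfl
  rw [← Finset.HasAntidiagonal.mem_antidiagonal.1 hp] at hβ
  exact lt_irrefl _ hβ

theorem coeff_Fil_mul {α α' : σ →₀ ℕ} {φ ψ : MvPowerSeries σ R} (h : φ ∈ Fil m α)
    (h' : ψ ∈ Fil m α') : coeff (α + α') (φ * ψ) = coeff α φ * coeff α' ψ := by
  classical
  rw [coeff_mul, Finset.sum_eq_single (α, α')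
    (fun p hp hne => Fil_aux m h h' le_rfl (Finset.HasAntidiagonal.mem_antidiagonal.1 hp) hne)
    fun hp => absurd (by simp) hp]

theorem Fil_pow {α : σ →₀ ℕ} {φ : MvPowerSeries σ R} (h : φ ∈ Fil m α) (n : ℕ) :
    φ ^ n ∈ Fil m (n • α) ∧ coeff (n • α) (φ ^ n) = coeff α φ ^ n := by
  induction n with
  | zero => simpa using mem_Fil_zero m (1 : MvPowerSeries σ R)
  | succ n ih =>
    rw [pow_succ, succ_nsmul, pow_succ, coeff_Fil_mul m ih.1 h, ih.2]
    exact ⟨Fil_mul m ih.1 h, rfl⟩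

theorem fil_min {P : (σ →₀ ℕ) → Prop} (h : ∃ α, P α) : ∃ α, P α ∧ ∀ β, β ≺[m] α → ¬ P β := by
  obtain ⟨α, h1, h2⟩ := (InvImage.wf m.toSyn wellFounded_lt).has_min {α | P α} h
  exact ⟨α, h1, fun β hβ hb => h2 β hb hβ⟩

/-- Every nonzero series has a leading exponent. -/
theorem exists_lead {φ : MvPowerSeries σ R} (h : φ ≠ 0) : ∃ α, φ ∈ Fil m α ∧ coeff α φ ≠ 0 := by
  obtain ⟨α, h1, h2⟩ := fil_min m (P := fun α => coeff α φ ≠ 0)
    (by by_contra h'; push Not at h'; exact h (MvPowerSeries.ext h'))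
  exact ⟨α, fun β hβ => not_not.1 (h2 β hβ), h1⟩

/-- The leading coefficients at the exponent `α` of the elements of `V`. -/
def Wl (V : Submodule F (MvPowerSeries σ R)) (α : σ →₀ ℕ) : Submodule F R :=
  (V ⊓ (Fil m α).restrictScalars F).map ((coeff α).restrictScalars F)

theorem mem_Wl {V : Submodule F (MvPowerSeries σ R)} {α : σ →₀ ℕ} {w : R} :
    w ∈ Wl m V α ↔ ∃ φ ∈ V, φ ∈ Fil m α ∧ coeff α φ = w :=
  ⟨fun ⟨φ, h, e⟩ => ⟨φ, h.1, h.2, e⟩, fun ⟨φ, h, h', e⟩ => ⟨φ, ⟨h, h'⟩, e⟩⟩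

theorem Wl_mono {V V' : Submodule F (MvPowerSeries σ R)} (h : V ≤ V') (α : σ →₀ ℕ) :
    Wl m V α ≤ Wl m V' α := Submodule.map_mono (inf_le_inf_right _ h)

theorem Wl_mul {V V' V'' : Submodule F (MvPowerSeries σ R)} (h : ∀ φ ∈ V, ∀ ψ ∈ V', φ * ψ ∈ V'')
    {α α' : σ →₀ ℕ} {w w' : R} (hw : w ∈ Wl m V α) (hw' : w' ∈ Wl m V' α') :
    w * w' ∈ Wl m V'' (α + α') := by
  obtain ⟨φ, h1, h2, rfl⟩ := (mem_Wl m).1 hw
  obtain ⟨ψ, h3, h4, rfl⟩ := (mem_Wl m).1 hw'
  exact (mem_Wl m).2 ⟨_, h φ h1 ψ h3, Fil_mul m h2 h4, coeff_Fil_mul m h2 h4⟩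

/-- `b` is a family in echelon form with leading exponents `e`. -/
def Adapted (F : Type) [Field F] [Algebra F R] {J : Type} (b : J → MvPowerSeries σ R)
    (e : J → σ →₀ ℕ) : Prop :=
  (∀ i, b i ∈ Fil m (e i)) ∧ ∀ α, LinearIndependent F fun i : {i // e i = α} => coeff α (b i)

theorem fil_indep {J : Type} [Fintype J] (P : J → Prop) (v : J → R) :
    (LinearIndependent F fun i : {i // P i} => v i) ↔
      ∀ c : J → F, (∀ i, ¬ P i → c i = 0) → ∑ i, c i • v i = 0 → ∀ i, c i = 0 := by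
  classical
  rw [Fintype.linearIndependent_iff]
  have e : ∀ c : J → F, (∀ i, ¬ P i → c i = 0) →
      ∑ i : {i // P i}, c i • v i = ∑ i, c i • v i := fun c hc => by
    rw [← Finset.sum_subtype (Finset.univ.filter P) (by simp) fun i => c i • v i]
    exact Finset.sum_filter_of_ne fun i _ h => not_not.1 fun h' => h (by rw [hc i h', zero_smul])
  refine ⟨fun h c hc hs i => ?_, fun h g hg i => ?_⟩
  · by_cases hi : P i
    exacts [h (fun i => c i) ((e c hc).trans hs) ⟨i, hi⟩, hc i hi]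
  · have := h (fun i => if hi : P i then g ⟨i, hi⟩ else 0) (fun i hi => dif_neg hi) (by
      rw [← e _ fun i hi => dif_neg hi, ← hg]
      exact Finset.sum_congr rfl fun i _ => by rw [dif_pos i.2]) i
    rwa [dif_pos i.2] at this

/-- Induction on the dimension: let `α` be the least leading exponent of a nonzero element, choose
`φ` with leading exponent `α`, a functional `l` on `R` with `l (coeff α φ) = 1`, and apply the
induction hypothesis to the kernel of `l ∘ coeff α` on `V`. -/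
theorem exists_adapted (V : Submodule F (MvPowerSeries σ R)) [FiniteDimensional F V] :
    ∃ (N : ℕ) (b : Fin N → MvPowerSeries σ R) (e : Fin N → σ →₀ ℕ),
      Submodule.span F (Set.range b) = V ∧ Adapted m F b e := by
  generalize hn : finrank F V = n
  induction n using Nat.strong_induction_on generalizing V with
  | _ n ih =>
  classical
  by_cases hV : V = ⊥
  · exact ⟨0, Fin.elim0, Fin.elim0, by simp [hV], fun i => i.elim0,
      fun α => Fintype.linearIndependent_iff.2 fun _ _ i => i.1.elim0⟩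
  obtain ⟨ψ, hψ, hψ0⟩ := (Submodule.ne_bot_iff V).1 hV
  obtain ⟨α₀, -, hα₀⟩ := exists_lead m hψ0
  obtain ⟨α, ⟨φ, hφ, h1⟩, h2⟩ := fil_min m (P := fun α => ∃ φ ∈ V, coeff α φ ≠ 0) ⟨α₀, ψ, hψ, hα₀⟩
  obtain ⟨l, hl⟩ : ∃ l : Dual F R, l (coeff α φ) ≠ 0 := by
    by_contra h'
    push Not at h'
    exact h1 ((forall_dual_apply_eq_zero_iff F _).1 h')
  let L : MvPowerSeries σ R →ₗ[F] F := l ∘ₗ (coeff α).restrictScalars F
  have hL : L φ ≠ 0 := hl
  obtain ⟨N, b, e, h3, h4, h5⟩ := ih _ (hn ▸ Submodule.finrank_lt_finrank_of_lt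
    (lt_of_le_of_ne inf_le_left fun h => hL (h.ge hφ).2)) (V ⊓ LinearMap.ker L) rfl
  have h6 : ∀ i, L (b i) = 0 := fun i => (h3.le (Submodule.subset_span ⟨i, rfl⟩)).2
  refine ⟨N + 1, Fin.cons φ b, Fin.cons α e, ?_, Fin.cases ?_ h4, fun β => (fil_indep
    (fun i => (Fin.cons α e : Fin (N + 1) → σ →₀ ℕ) i = β)
    fun i => coeff β ((Fin.cons φ b : Fin (N + 1) → MvPowerSeries σ R) i)).2 ?_⟩
  · rw [Fin.range_cons, Submodule.span_insert, h3]
    refine le_antisymm (sup_le ((Submodule.span_singleton_le_iff_mem _ _).2 hφ) inf_le_left)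
      fun v hv => Submodule.mem_sup.2 ⟨(L v / L φ) • φ,
        Submodule.smul_mem _ _ (Submodule.mem_span_singleton_self φ), v - (L v / L φ) • φ,
        ⟨sub_mem hv (V.smul_mem _ hφ), ?_⟩, add_sub_cancel _ _⟩
    simp [hL]
  · exact fun β hβ => not_not.1 fun h => h2 β hβ ⟨φ, hφ, h⟩
  · intro c hc hs
    rw [Fin.sum_univ_succ] at hs
    simp only [Fin.cons_zero, Fin.cons_succ] at hs
    have h0 : c 0 = 0 := by
      by_cases hβ : α = β
      · subst hβ
        have h7 := congrArg l hs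
        have h8 : ∀ i, l (coeff α (b i)) = 0 := h6
        simpa [h8, hl] using h7
      · exact hc 0 hβ
    rw [h0, zero_smul, zero_add] at hs
    exact Fin.cases h0 ((fil_indep (fun i => e i = β) fun i => coeff β (b i)).1 (h5 β) (fun i => c i.succ) (fun i => hc i.succ) hs)

theorem fil_coeff {J : Type} [Fintype J] [DecidableEq σ] {b : J → MvPowerSeries σ R}
    {e : J → σ →₀ ℕ} (h : Adapted m F b e) {c : J → F} {β : σ →₀ ℕ}
    (hc : ∀ i, e i ≺[m] β → c i = 0) :
    coeff β (∑ i, c i • b i) = ∑ i, (if e i = β then c i else 0) • coeff β (b i) := by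
  rw [map_sum]
  refine Finset.sum_congr rfl fun i _ => ?_
  rw [show coeff β (c i • b i) = c i • coeff β (b i) from rfl]
  split_ifs with hi
  · rfl
  · rcases lt_or_gt_of_ne (m.toSyn.injective.ne hi) with h1 | h1
    · rw [hc i h1]
    · rw [h.1 i β h1, smul_zero, smul_zero]

theorem fil_key {J : Type} [Fintype J] {b : J → MvPowerSeries σ R} {e : J → σ →₀ ℕ}
    (h : Adapted m F b e) {c : J → F} {i : J}
    (hc : ∀ γ, γ ≼[m] e i → coeff γ (∑ i, c i • b i) = 0) : c i = 0 := by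
  classical
  by_contra hi
  obtain ⟨β, ⟨j, h1, h2⟩, h3⟩ := fil_min m (P := fun β => ∃ j, e j = β ∧ c j ≠ 0) ⟨_, i, rfl, hi⟩
  have h4 := hc β (not_lt.1 fun h' => h3 _ h' ⟨i, rfl, hi⟩)
  rw [fil_coeff m h fun k hk => not_not.1 fun h' => h3 _ hk ⟨k, rfl, h'⟩] at h4
  have := (fil_indep (fun i => e i = β) fun i => coeff β (b i)).1 (h.2 β) _ (fun k hk => if_neg hk) h4 j
  rw [if_pos h1] at this
  exact h2 this

/-- In a combination that lies in `Fil α` the members with smaller exponent do not occur. -/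
theorem Adapted.eq_zero {J : Type} [Fintype J] {b : J → MvPowerSeries σ R} {e : J → σ →₀ ℕ}
    (h : Adapted m F b e) {c : J → F} {α : σ →₀ ℕ} (hc : ∑ i, c i • b i ∈ Fil m α) {i : J}
    (hi : e i ≺[m] α) : c i = 0 := by
  exact fil_key m h fun γ hγ => hc γ (lt_of_le_of_lt hγ hi)

theorem Adapted.indep {J : Type} [Fintype J] {b : J → MvPowerSeries σ R} {e : J → σ →₀ ℕ}
    (h : Adapted m F b e) : LinearIndependent F b := by
  exact Fintype.linearIndependent_iff.2 fun c hc i => fil_key m h fun γ _ => by rw [hc, map_zero]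

theorem Adapted.Wl_span {J : Type} [Fintype J] {b : J → MvPowerSeries σ R} {e : J → σ →₀ ℕ}
    (h : Adapted m F b e) (α : σ →₀ ℕ) : Wl m (Submodule.span F (Set.range b)) α =
      Submodule.span F (Set.range fun i : {i // e i = α} => coeff α (b i)) := by
  classical
  refine le_antisymm (fun w hw => ?_) (Submodule.span_le.2 ?_)
  · obtain ⟨φ, h1, h2, rfl⟩ := (mem_Wl m).1 hw
    obtain ⟨c, rfl⟩ := (Submodule.mem_span_range_iff_exists_fun F).1 h1
    rw [fil_coeff m h fun i hi => h.eq_zero m h2 hi]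
    refine Submodule.sum_mem _ fun i _ => ?_
    split_ifs with hi
    · exact Submodule.smul_mem _ _ (Submodule.subset_span ⟨⟨i, hi⟩, rfl⟩)
    · simp
  · rintro _ ⟨⟨i, rfl⟩, rfl⟩
    exact (mem_Wl m).2 ⟨b i, Submodule.subset_span ⟨i, rfl⟩, h.1 i, rfl⟩

theorem Wl_fd (V : Submodule F (MvPowerSeries σ R)) [FiniteDimensional F V] (α : σ →₀ ℕ) :
    FiniteDimensional F (Wl m V α) := by
  unfold Wl
  infer_instance

theorem fil_count [DecidableEq σ] (V : Submodule F (MvPowerSeries σ R)) [FiniteDimensional F V] :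
    ∃ (N : ℕ) (e : Fin N → σ →₀ ℕ), finrank F V = N ∧
      ∀ α, finrank F (Wl m V α) = (Finset.univ.filter fun i => e i = α).card := by
  obtain ⟨N, b, e, rfl, h⟩ := exists_adapted m V
  refine ⟨N, e, by rw [finrank_span_eq_card (h.indep m), Fintype.card_fin], fun α => ?_⟩
  rw [h.Wl_span m, finrank_span_eq_card (h.2 α), Fintype.card_subtype]

theorem Wl_finite (V : Submodule F (MvPowerSeries σ R)) [FiniteDimensional F V] :
    {α | Wl m V α ≠ ⊥}.Finite := by
  classical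
  obtain ⟨N, e, -, h⟩ := fil_count m V
  refine (Set.finite_range e).subset fun α hα => ?_
  have := Wl_fd m V α
  obtain ⟨i, hi⟩ := Finset.card_ne_zero.1 (h α ▸ mt Submodule.finrank_eq_zero.1 hα)
  exact ⟨i, (Finset.mem_filter.1 hi).2⟩

theorem sum_Wl_le (V : Submodule F (MvPowerSeries σ R)) [FiniteDimensional F V]
    (S : Finset (σ →₀ ℕ)) : ∑ α ∈ S, finrank F (Wl m V α) ≤ finrank F V := by
  classical
  obtain ⟨N, e, h1, h⟩ := fil_count m V
  simp only [h, h1, Finset.sum_card_fiberwise_eq_card_filter]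
  exact (Finset.card_filter_le _ _).trans (by simp)

theorem sum_Wl_eq (V : Submodule F (MvPowerSeries σ R)) [FiniteDimensional F V]
    (S : Finset (σ →₀ ℕ)) (hS : ∀ α, Wl m V α ≠ ⊥ → α ∈ S) :
    ∑ α ∈ S, finrank F (Wl m V α) = finrank F V := by
  classical
  obtain ⟨N, e, h1, h⟩ := fil_count m V
  simp only [h, h1, Finset.sum_card_fiberwise_eq_card_filter]
  rw [Finset.filter_true_of_mem fun i _ => hS _ fun h' => ?_, Finset.card_univ, Fintype.card_fin]
  have := h (e i)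
  rw [h', finrank_bot] at this
  exact Finset.card_ne_zero.2 ⟨i, by simp⟩ this.symm

/-- Over the ground field the dimension is the number of leading exponents. -/
theorem ncard_Wl (V : Submodule F (MvPowerSeries σ F)) [FiniteDimensional F V] :
    {α | Wl m V α ≠ ⊥}.ncard = finrank F V := by
  rw [← sum_Wl_eq m V (Wl_finite m V).toFinset fun α h => (Set.Finite.mem_toFinset _).2 h,
    Set.ncard_eq_toFinset_card _ (Wl_finite m V), Finset.card_eq_sum_ones]
  refine Finset.sum_congr rfl fun α h => le_antisymm ?_ ?_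
  · exact Nat.one_le_iff_ne_zero.2
      (mt Submodule.finrank_eq_zero.1 ((Set.Finite.mem_toFinset _).1 h))
  · simpa using Submodule.finrank_le (Wl m V α)

end

end Pool.Agent.Lib.MP_bc213e_ag.Jet
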