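import Pool.Agent.Lib.MP_bc213e_ag.Jet.Fil

/-! Jets are generated at a high rate if elements of high order cut out the point. -/

namespace Pool.Agent.Lib.MP_bc213e_ag.Jet

open MvPowerSeries Module
open scoped MonomialOrder

noncomputable section

/-- Induction on `l`: write `σ⁻¹ ^ (l + 1) f = u + ∑ s fₛ + j`, multiply by `σ ^ (l + 1)` and apply
the induction hypothesis to the `σ ^ (l + 1) fₛ`. -/
theorem lemG {F O : Type} [Field F] [CommRing O] [Algebra F O] (U : ℕ → Submodule F O)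
    (hU : ∀ a b, ∀ u ∈ U a, ∀ v ∈ U b, u * v ∈ U (a + b)) {k₀ c : ℕ} {S : Set O}
    (hS : ∀ s ∈ S, s ∈ U k₀) {w : O} (hw : w ∈ U k₀) (hu : IsUnit w) (J : Ideal O)
    (h0 : ∀ f, ∃ u ∈ U c, f - u ∈ Ideal.span S ⊔ J) (l : ℕ) (f : O) :
    ∃ u ∈ U (c + l * k₀), f - u ∈ Ideal.span S ^ (l + 1) ⊔ J := by
  induction l generalizing f with
  | zero => simpa using h0 f
  | succ l ih =>
    have e : c + (l + 1) * k₀ = c + l * k₀ + k₀ := by ring
    have hA : ∀ g ∈ Ideal.span S, ∀ r, ∃ u ∈ U (c + (l + 1) * k₀),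
        r * g - u ∈ Ideal.span S ^ (l + 1 + 1) ⊔ J := by
      intro g hg
      induction hg using Submodule.span_induction with
      | mem s hs =>
        intro r
        obtain ⟨u, h1, h2⟩ := ih r
        refine ⟨u * s, e ▸ hU _ _ u h1 s (hS s hs), ?_⟩
        obtain ⟨a, ha, b, hb, hab⟩ := Submodule.mem_sup.1 h2
        rw [← sub_mul, ← hab, add_mul, pow_succ _ (l + 1)]
        exact Submodule.add_mem_sup (Ideal.mul_mem_mul ha (Ideal.subset_span hs))
          (J.mul_mem_right s hb)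
      | zero => exact fun r => ⟨0, zero_mem _, by simp⟩
      | add x y _ _ hx hy =>
        intro r
        obtain ⟨u, h1, h2⟩ := hx r
        obtain ⟨v, h3, h4⟩ := hy r
        refine ⟨u + v, add_mem h1 h3, ?_⟩
        rw [mul_add, add_sub_add_comm]
        exact add_mem h2 h4
      | smul a x _ hx =>
        intro r
        rw [smul_eq_mul, ← mul_assoc]
        exact hx _
    obtain ⟨w', rfl⟩ := hu
    obtain ⟨u, h1, h2⟩ := ih (f * (w'⁻¹ : Oˣ))
    obtain ⟨a, ha, b, hb, hab⟩ := Submodule.mem_sup.1 h2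
    obtain ⟨v, h3, h4⟩ := hA a (Ideal.pow_le_self (Nat.succ_ne_zero l) ha) w'
    refine ⟨u * w' + v, add_mem (e ▸ hU _ _ u h1 _ hw) h3, ?_⟩
    have e2 : f - (u * w' + v) = (w' * a - v) + b * w' := by
      have e3 : f = f * (w'⁻¹ : Oˣ) * w' := (Units.inv_mul_cancel_right f w').symm
      linear_combination e3 - w' * hab
    rw [e2]
    exact add_mem h4 (Ideal.mem_sup_right (J.mul_mem_right _ hb))

variable {σ R : Type} [CommRing R]

/-- The series of order at least `D`. -/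
def Ord (σ R : Type) [CommRing R] (D : ℕ) : Ideal (MvPowerSeries σ R) where
  carrier := {φ | ∀ β : σ →₀ ℕ, β.degree < D → coeff β φ = 0}
  add_mem' := fun ha hb β h => by rw [map_add, ha β h, hb β h, add_zero]
  zero_mem' := fun β _ => map_zero _
  smul_mem' := fun c φ hφ β h => by
    classical
    rw [smul_eq_mul, coeff_mul]
    refine Finset.sum_eq_zero fun p hp => ?_
    rw [hφ p.2 (lt_of_le_of_lt ?_ h), mul_zero]
    rw [← Finset.HasAntidiagonal.mem_antidiagonal.1 hp, map_add]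
    exact le_add_self

theorem mem_Ord {D : ℕ} {φ : MvPowerSeries σ R} :
    φ ∈ Ord σ R D ↔ ∀ β : σ →₀ ℕ, β.degree < D → coeff β φ = 0 := Iff.rfl

theorem Ord_anti {D D' : ℕ} (h : D ≤ D') : Ord σ R D' ≤ Ord σ R D :=
  fun _ hφ β hβ => hφ β (hβ.trans_le h)

theorem Ord_mul {D D' : ℕ} {φ ψ : MvPowerSeries σ R} (h : φ ∈ Ord σ R D) (h' : ψ ∈ Ord σ R D') :
    φ * ψ ∈ Ord σ R (D + D') := by
  classical
  intro β hβ
  rw [coeff_mul]
  refine Finset.sum_eq_zero fun p hp => ?_
  rw [← Finset.HasAntidiagonal.mem_antidiagonal.1 hp, map_add] at hβ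
  by_cases h1 : p.1.degree < D
  · rw [h _ h1, zero_mul]
  · rw [h' _ (by omega), mul_zero]

theorem Ord_pow {D : ℕ} {I : Ideal (MvPowerSeries σ R)} (h : I ≤ Ord σ R D) (l : ℕ) :
    I ^ l ≤ Ord σ R (l * D) := by
  induction l with
  | zero => exact fun φ _ β hβ => absurd hβ (by simp)
  | succ l ih =>
    rw [pow_succ, Nat.succ_mul]
    exact Ideal.mul_le.2 fun φ hφ ψ hψ => Ord_mul (ih hφ) (h hψ)

/-- Every series is a combination of monomials with all exponents below `N`, modulo the `X i ^ N`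
and terms of high order. -/
theorem split_mono [Finite σ] {F : Type} [Field F] [Algebra F R] (M : Submodule F (MvPowerSeries σ R))
    {N : ℕ} (hM : ∀ (β : σ →₀ ℕ) (r : R), (∀ i, β i < N) → monomial β r ∈ M)
    {Q : Ideal (MvPowerSeries σ R)} (hQ : ∀ i, X i ^ N ∈ Q) (D : ℕ) (f : MvPowerSeries σ R) :
    ∃ u ∈ M, f - u ∈ Q ⊔ Ord σ R D := by
  classical
  have key : ∀ β : σ →₀ ℕ, ∃ u ∈ M, monomial β (coeff β f) - u ∈ Q := by
    intro β
    by_cases hβ : ∀ i, β i < N
    · exact ⟨_, hM β (coeff β f) hβ, by simp⟩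
    · obtain ⟨i, hi⟩ := not_forall.1 hβ
      refine ⟨0, zero_mem _, ?_⟩
      have e : monomial β (coeff β f) =
          X i ^ N * monomial (β - Finsupp.single i N) (coeff β f) := by
        rw [X_pow_eq, monomial_mul_monomial, one_mul,
          add_tsub_cancel_of_le (Finsupp.single_le_iff.2 (not_lt.1 hi))]
      rw [sub_zero, e]
      exact Q.mul_mem_right _ (hQ i)
  choose u hu hu' using key
  set T := (Finsupp.finite_of_degree_lt (σ := σ) D).toFinset with hT
  refine ⟨∑ β ∈ T, u β, sum_mem fun β _ => hu β, ?_⟩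
  have e : f - ∑ β ∈ T, u β = ∑ β ∈ T, (monomial β (coeff β f) - u β) +
      (f - ∑ β ∈ T, monomial β (coeff β f)) := by
    rw [Finset.sum_sub_distrib]
    ring
  rw [e]
  refine Submodule.add_mem_sup (sum_mem fun β _ => hu' β) fun γ hγ => ?_
  rw [map_sub, map_sum, Finset.sum_eq_single γ (fun β _ hne => coeff_monomial_ne hne.symm _)
    (fun h => absurd ((Finsupp.finite_of_degree_lt (σ := σ) D).mem_toFinset.2 hγ) h),
    coeff_monomial_same, sub_self]

theorem lemg_deg [LinearOrder σ] [WellFoundedGT σ] {β γ : σ →₀ ℕ}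
    (h : γ ≼[MonomialOrder.degLex] β) : γ.degree ≤ β.degree :=
  Finsupp.DegLex.monotone_degree (MonomialOrder.degLex_le_iff.1 h)

/-- An element that is a monomial up to terms of higher degree has that leading exponent. -/
theorem lead_of_Ord [LinearOrder σ] [WellFoundedGT σ] {β : σ →₀ ℕ} {r : R} {D : ℕ}
    (hβ : β.degree < D) {u : MvPowerSeries σ R} (h : monomial β r - u ∈ Ord σ R D) :
    u ∈ Fil MonomialOrder.degLex β ∧ coeff β u = r := by
  refine ⟨fun γ hγ => ?_, ?_⟩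
  · have h1 := h γ ((lemg_deg hγ.le).trans_lt hβ)
    rwa [map_sub, coeff_monomial_ne (fun e => by rw [e] at hγ; exact lt_irrefl _ hγ), zero_sub,
      neg_eq_zero] at h1
  · have h1 := h β hβ
    rw [map_sub, coeff_monomial_same, sub_eq_zero] at h1
    exact h1.symm

theorem Ord_le_Fil [LinearOrder σ] [WellFoundedGT σ] {β : σ →₀ ℕ} {D : ℕ} (h : β.degree ≤ D) :
    ∀ φ ∈ Ord σ R (D + 1), φ ∈ Fil MonomialOrder.degLex β ∧ coeff β φ = 0 := by
  exact fun φ hφ => ⟨fun γ hγ => hφ γ (Nat.lt_succ_of_le ((lemg_deg hγ.le).trans h)),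
    hφ β (Nat.lt_succ_of_le h)⟩

theorem Fil_le_Ord [LinearOrder σ] [WellFoundedGT σ] (β : σ →₀ ℕ) :
    Fil (R := R) MonomialOrder.degLex β ≤ Ord σ R β.degree := by
  exact fun φ hφ γ hγ => hφ γ (not_le.1 fun h => absurd (lemg_deg h) (not_le.2 hγ))

end

end Pool.Agent.Lib.MP_bc213e_ag.Jet
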