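import Mathlib

/-! Taylor expansion along commuting derivations. -/

namespace Pool.Agent.Lib.MP_bc213e_ag.Jet

open MvPowerSeries

noncomputable section

variable {σ k T R : Type} [Fintype σ] [DecidableEq σ] [CommRing k] [CommRing T] [Algebra k T]
  [CommRing R] [Algebra ℚ R]

/-- A family of commuting derivations. -/
def Comm (D : σ → Derivation k T T) : Prop := ∀ i j f, D i (D j f) = D j (D i f)

variable {D : σ → Derivation k T T}

omit [Fintype σ] [DecidableEq σ] in
theorem Comm.commute (hD : Comm D) (β : σ →₀ ℕ) (s : Finset σ) :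
    (s : Set σ).Pairwise (Function.onFun Commute
      fun i => ((D i).toLinearMap : Module.End k T) ^ β i) := fun i _ j _ _ =>
  Commute.pow_pow (LinearMap.ext fun f => hD i j f) _ _

/-- The iterated derivative. -/
def dpow (hD : Comm D) (β : σ →₀ ℕ) : Module.End k T :=
  Finset.univ.noncommProd (fun i => ((D i).toLinearMap : Module.End k T) ^ β i) (hD.commute β _)

omit [DecidableEq σ] in
theorem dpow_zero (hD : Comm D) (f : T) : dpow hD 0 f = f := by
  rw [dpow, Finset.noncommProd_eq_pow_card _ _ _ 1 fun i _ => by simp]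
  simp

theorem dpow_add_single (hD : Comm D) (β : σ →₀ ℕ) (i : σ) (f : T) :
    dpow hD (β + Finsupp.single i 1) f = D i (dpow hD β f) := by
  have h : ∀ γ : σ →₀ ℕ, dpow hD γ = ((D i).toLinearMap : Module.End k T) ^ γ i *
      (Finset.univ.erase i).noncommProd (fun j => ((D j).toLinearMap : Module.End k T) ^ γ j)
        (hD.commute γ _) := fun γ =>
    (Finset.mul_noncommProd_erase _ (Finset.mem_univ i) _ _).symm
  have h2 : (Finset.univ.erase i).noncommProd
      (fun j => ((D j).toLinearMap : Module.End k T) ^ (β + Finsupp.single i 1 : σ →₀ ℕ) j)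
        (hD.commute _ _) = (Finset.univ.erase i).noncommProd
      (fun j => ((D j).toLinearMap : Module.End k T) ^ β j) (hD.commute _ _) :=
    Finset.noncommProd_congr rfl (fun j hj => by
      rw [Finsupp.add_apply, Finsupp.single_eq_of_ne (Finset.ne_of_mem_erase hj), add_zero]) _
  rw [h, h, h2, Finsupp.add_apply, Finsupp.single_eq_same, pow_succ']
  rfl

omit [Fintype σ] [DecidableEq σ] in
theorem deg_ind {P : (σ →₀ ℕ) → Prop} (h0 : P 0)
    (h1 : ∀ β i, P β → P (β + Finsupp.single i 1)) (β : σ →₀ ℕ) : P β := by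
  induction β using Finsupp.induction with
  | zero => exact h0
  | single_add i n β _ _ ih =>
    rw [add_comm]
    rename_i h2 h3
    clear h2 h3
    induction n with
    | zero => simpa using ih
    | succ n ihn =>
      rw [Finsupp.single_add, ← add_assoc]
      exact h1 _ _ ihn

theorem dpow_comm (hD : Comm D) (β : σ →₀ ℕ) (i : σ) (f : T) :
    dpow hD β (D i f) = D i (dpow hD β f) := by
  induction β using deg_ind with
  | h0 => rw [dpow_zero, dpow_zero]
  | h1 β j ih => rw [dpow_add_single, dpow_add_single, ih, hD]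

theorem dpow_add (hD : Comm D) (β γ : σ →₀ ℕ) (f : T) :
    dpow hD (β + γ) f = dpow hD β (dpow hD γ f) := by
  induction β using deg_ind with
  | h0 => rw [zero_add, dpow_zero]
  | h1 β j ih => rw [add_right_comm, dpow_add_single, dpow_add_single, ih]

/-- A set that is stable under the derivations is stable under the iterated derivatives. -/
theorem dpow_mem (hD : Comm D) {S : Set T} (hS : ∀ i, ∀ f ∈ S, D i f ∈ S) (β : σ →₀ ℕ) {f : T}
    (hf : f ∈ S) : dpow hD β f ∈ S := by
  induction β using deg_ind with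
  | h0 => rwa [dpow_zero]
  | h1 β j ih => rw [dpow_add_single]; exact hS _ _ ih

/-- The multi-factorial. -/
def mfac (β : σ →₀ ℕ) : ℕ := ∏ i, (β i).factorial

omit [DecidableEq σ] in
theorem mfac_pos (β : σ →₀ ℕ) : 0 < mfac β :=
  Finset.prod_pos fun _ _ => Nat.factorial_pos _

omit [DecidableEq σ] in
theorem mfac_zero : mfac (0 : σ →₀ ℕ) = 1 := by simp [mfac]

theorem mfac_add_single (β : σ →₀ ℕ) (i : σ) :
    mfac (β + Finsupp.single i 1) = (β i + 1) * mfac β := by
  rw [mfac, mfac, ← Finset.mul_prod_erase _ _ (Finset.mem_univ i),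
    ← Finset.mul_prod_erase _ _ (Finset.mem_univ i), Finsupp.add_apply, Finsupp.single_eq_same,
    Nat.factorial_succ, mul_assoc]
  congr 2
  refine Finset.prod_congr rfl fun j hj => ?_
  rw [Finsupp.add_apply, Finsupp.single_eq_of_ne (Finset.ne_of_mem_erase hj), add_zero]

/-- The Taylor series as a function. -/
def tayF (hD : Comm D) (ε : T →+* R) (f : T) : MvPowerSeries σ R :=
  fun β => ((mfac β : ℚ)⁻¹) • ε (dpow hD β f)

omit [DecidableEq σ] in
theorem coeff_tayF (hD : Comm D) (ε : T →+* R) (f : T) (β : σ →₀ ℕ) :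
    coeff β (tayF hD ε f) = ((mfac β : ℚ)⁻¹) • ε (dpow hD β f) := rfl

theorem pderiv_tayF (hD : Comm D) (ε : T →+* R) (f : T) (i : σ) :
    pderiv R i (tayF hD ε f) = tayF hD ε (D i f) := by
  ext β
  rw [coeff_pderiv, coeff_tayF, coeff_tayF, dpow_add_single, dpow_comm, mfac_add_single]
  have h1 : ((β i : R) + 1) = ((β i + 1 : ℕ) : ℚ) • (1 : R) := by
    rw [Nat.cast_smul_eq_nsmul, nsmul_one, Nat.cast_add, Nat.cast_one]
  have h2 : ((β i + 1 : ℕ) : ℚ) ≠ 0 := by positivity
  rw [h1, mul_smul_comm, mul_one, smul_smul, Nat.cast_mul, mul_inv, ← mul_assoc,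
    mul_inv_cancel₀ h2, one_mul]

omit [DecidableEq σ] in
theorem tayF_add (hD : Comm D) (ε : T →+* R) (f g : T) :
    tayF hD ε (f + g) = tayF hD ε f + tayF hD ε g := by
  ext β
  rw [map_add, coeff_tayF, coeff_tayF, coeff_tayF, map_add, map_add, smul_add]

omit [Fintype σ] [DecidableEq σ] in
theorem eq_of_pderiv {φ ψ : MvPowerSeries σ R} {β : σ →₀ ℕ} {i : σ}
    (h : coeff β (pderiv R i φ) = coeff β (pderiv R i ψ)) :
    coeff (β + Finsupp.single i 1) φ = coeff (β + Finsupp.single i 1) ψ := by
  rw [coeff_pderiv, coeff_pderiv] at h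
  have h1 : ((β i : R) + 1) = algebraMap ℚ R ((β i + 1 : ℕ) : ℚ) := by simp
  have h2 : IsUnit ((β i : R) + 1) := by
    rw [h1]
    exact (IsUnit.mk0 _ (by positivity)).map _
  exact h2.mul_right_cancel h

theorem tayF_mul (hD : Comm D) (ε : T →+* R) (f g : T) :
    tayF hD ε (f * g) = tayF hD ε f * tayF hD ε g := by
  ext β
  induction β using deg_ind generalizing f g with
  | h0 =>
    rw [coeff_zero_eq_constantCoeff_apply (_ * _), map_mul, ← coeff_zero_eq_constantCoeff_apply,
      ← coeff_zero_eq_constantCoeff_apply]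
    simp only [coeff_tayF, dpow_zero, mfac_zero, Nat.cast_one, inv_one, one_smul, map_mul]
  | h1 β i ih =>
    refine eq_of_pderiv ?_
    rw [pderiv_tayF, Derivation.leibniz, Derivation.leibniz, pderiv_tayF, pderiv_tayF, smul_eq_mul,
      smul_eq_mul, smul_eq_mul, smul_eq_mul, tayF_add, map_add, map_add, ih, ih]

/-- The Taylor expansion at `ε`. -/
def tay (hD : Comm D) (ε : T →+* R) : T →+* MvPowerSeries σ R where
  toFun := tayF hD ε
  map_add' := tayF_add hD ε
  map_mul' := tayF_mul hD ε
  map_zero' := by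
    ext β
    rw [coeff_tayF, map_zero, map_zero, smul_zero, map_zero]
  map_one' := by
    ext β
    induction β using deg_ind with
    | h0 => simp [coeff_tayF, dpow_zero, mfac_zero]
    | h1 β i _ =>
      refine eq_of_pderiv ?_
      rw [pderiv_tayF, Derivation.map_one_eq_zero, Derivation.map_one_eq_zero, coeff_tayF, map_zero,
        map_zero, smul_zero, map_zero]

theorem coeff_tay (hD : Comm D) (ε : T →+* R) (f : T) (β : σ →₀ ℕ) :
    coeff β (tay hD ε f) = ((mfac β : ℚ)⁻¹) • ε (dpow hD β f) := rfl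

theorem coeff_tay_eq_zero (hD : Comm D) (ε : T →+* R) (f : T) (β : σ →₀ ℕ) :
    coeff β (tay hD ε f) = 0 ↔ ε (dpow hD β f) = 0 := by
  have h : ((mfac β : ℚ)⁻¹) ≠ 0 := inv_ne_zero (Nat.cast_ne_zero.2 (mfac_pos β).ne')
  rw [coeff_tay]
  exact ⟨fun e => (smul_eq_zero.1 e).resolve_left h, fun e => by rw [e, smul_zero]⟩

theorem constantCoeff_tay (hD : Comm D) (ε : T →+* R) (f : T) :
    constantCoeff (tay hD ε f) = ε f := by
  rw [← coeff_zero_eq_constantCoeff_apply, coeff_tay, dpow_zero, mfac_zero, Nat.cast_one, inv_one,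
    one_smul]

theorem pderiv_tay (hD : Comm D) (ε : T →+* R) (f : T) (i : σ) :
    pderiv R i (tay hD ε f) = tay hD ε (D i f) := pderiv_tayF hD ε f i

omit [Fintype σ] [DecidableEq σ] in
theorem ext_pderiv {φ ψ : MvPowerSeries σ R} (h0 : constantCoeff φ = constantCoeff ψ)
    (h : ∀ i, pderiv R i φ = pderiv R i ψ) : φ = ψ := by
  ext β
  induction β using deg_ind with
  | h0 => rwa [coeff_zero_eq_constantCoeff_apply, coeff_zero_eq_constantCoeff_apply]
  | h1 β i _ => exact eq_of_pderiv (by rw [h])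

theorem tay_const (hD : Comm D) (ε : T →+* R) {c : T} (hc : ∀ i, D i c = 0) :
    tay hD ε c = C (ε c) :=
  ext_pderiv (by rw [constantCoeff_tay, constantCoeff_C]) fun i => by
    rw [pderiv_tay, hc, map_zero, pderiv_C]

theorem tay_coord (hD : Comm D) (ε : T →+* R) {u : T} {j : σ}
    (hu : ∀ i, D i u = if i = j then 1 else 0) : tay hD ε u = C (ε u) + X j :=
  ext_pderiv (by simp [constantCoeff_tay]) fun i => by
    rw [pderiv_tay, hu, map_add, pderiv_C, zero_add]
    split_ifs with h
    · rw [h, map_one, pderiv_X_self]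
    · rw [map_zero, pderiv_X_of_ne (Ne.symm h)]

/-- Compatibility with a ring homomorphism on the coefficients. -/
theorem map_tay {R' : Type} [CommRing R'] [Algebra ℚ R'] (hD : Comm D) (ε : T →+* R) (ρ : R →+* R')
    (f : T) : map ρ (tay hD ε f) = tay hD (ρ.comp ε) f := by
  ext β
  rw [coeff_map, coeff_tay, coeff_tay, map_rat_smul]
  rfl

end

end Pool.Agent.Lib.MP_bc213e_ag.Jet
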