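import Mathlib

/-! Counting lattice points. -/

namespace Pool.Agent.Lib.MP_bc213e_ag.Jet

variable {σ : Type} [Fintype σ]

theorem cnt_box_eq (w : ℕ) : {r : σ →₀ ℕ | ∀ i, r i < w} =
    Set.range fun f : σ → Fin w => Finsupp.equivFunOnFinite.symm fun i => (f i : ℕ) := by
  ext r
  constructor
  · intro h
    exact ⟨fun i => ⟨r i, h i⟩, by ext i; simp⟩
  · rintro ⟨f, rfl⟩ i
    simp

theorem cnt_box_fin (w : ℕ) : {r : σ →₀ ℕ | ∀ i, r i < w}.Finite := by
  rw [cnt_box_eq]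
  exact Set.finite_range _

theorem cnt_box_card (w : ℕ) : {r : σ →₀ ℕ | ∀ i, r i < w}.ncard = w ^ Fintype.card σ := by
  classical
  rw [cnt_box_eq, Set.ncard_range_of_injective, Nat.card_eq_fintype_card, Fintype.card_fun,
    Fintype.card_fin]
  intro f g h
  funext i
  have := congrArg (fun r : σ →₀ ℕ => r i) h
  exact Fin.ext (by simpa using this)

/-- The map `(α, r) ↦ w α + r` is injective on `A × [0, w) ^ σ`. -/
theorem cnt_up {A B : Set (σ →₀ ℕ)} {w : ℕ} (hB : B.Finite)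
    (h : ∀ α ∈ A, ∀ r : σ →₀ ℕ, (∀ i, r i < w) → w • α + r ∈ B) :
    A.ncard * w ^ Fintype.card σ ≤ B.ncard := by
  rw [← cnt_box_card, ← Set.ncard_prod]
  refine Set.ncard_le_ncard_of_injOn (fun p => w • p.1 + p.2)
    (fun p hp => h p.1 hp.1 p.2 hp.2) (fun p hp q hq e => ?_) hB
  have k : ∀ i, p.1 i = q.1 i ∧ p.2 i = q.2 i := fun i => by
    have e1 : w * p.1 i + p.2 i = w * q.1 i + q.2 i := by
      simpa using congrArg (fun r : σ →₀ ℕ => r i) e
    have a : p.2 i < w := hp.2 i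
    have b : q.2 i < w := hq.2 i
    have e2 : p.2 i = q.2 i := by
      have := congrArg (· % w) e1
      simpa [Nat.mod_eq_of_lt a, Nat.mod_eq_of_lt b] using this
    rw [e2] at e1
    exact ⟨Nat.eq_of_mul_eq_mul_left (by omega) (Nat.add_right_cancel e1), e2⟩
  exact Prod.ext (Finsupp.ext fun i => (k i).1) (Finsupp.ext fun i => (k i).2)

/-- Every point of `B` is `w α + r` with `α ∈ A`. -/
theorem cnt_down {A B : Set (σ →₀ ℕ)} {w : ℕ} (hw : 0 < w) (hA : A.Finite)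
    (h : ∀ β ∈ B, β.mapRange (· / w) (Nat.zero_div w) ∈ A) :
    B.ncard ≤ A.ncard * w ^ Fintype.card σ := by
  rw [← cnt_box_card, ← Set.ncard_prod]
  refine Set.ncard_le_ncard_of_injOn
    (fun β => (β.mapRange (· / w) (Nat.zero_div w), β.mapRange (· % w) (Nat.zero_mod w)))
    (fun β hβ => ⟨h β hβ, fun i => by simpa using Nat.mod_lt _ hw⟩) (fun β _ γ _ e => ?_)
    (hA.prod (cnt_box_fin w))
  ext i
  have e1 : β i / w = γ i / w := by
    simpa using congrArg (fun p : (σ →₀ ℕ) × (σ →₀ ℕ) => p.1 i) e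
  have e2 : β i % w = γ i % w := by
    simpa using congrArg (fun p : (σ →₀ ℕ) × (σ →₀ ℕ) => p.2 i) e
  rw [← Nat.div_add_mod (β i) w, e1, e2, Nat.div_add_mod]

omit [Fintype σ] in
theorem cnt_sub (D : ℕ) : {β : σ →₀ ℕ | β.degree < D} ⊆ {r : σ →₀ ℕ | ∀ i, r i < D} :=
  fun β h i => (Finsupp.le_degree i β).trans_lt h

theorem finite_deg (D : ℕ) : {β : σ →₀ ℕ | β.degree < D}.Finite := by
  exact (cnt_box_fin D).subset (cnt_sub D)

theorem ncard_deg_le (D : ℕ) : {β : σ →₀ ℕ | β.degree < D}.ncard ≤ D ^ Fintype.card σ := by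
  rw [← cnt_box_card]
  exact Set.ncard_le_ncard (cnt_sub D) (cnt_box_fin D)

end Pool.Agent.Lib.MP_bc213e_ag.Jet
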